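import Mathlib
import Pool.Agent.MP_ddf486_co.Main

open scoped Classical

namespace Pool.Agent.Results.MP_ddf486_co.LargeEnergy

theorem result : ∀ ε : ℝ, 0 < ε → ∃ C : ℝ, 0 < C ∧
    ∀ (P : Finset (EuclideanSpace ℝ (Fin 2))) (K : ℝ), 16 ≤ P.card →
      (P.card : ℝ) ^ 3 ≤ K * Finset.addEnergy P P →
      C * K ^ 82 * Real.log (Real.log P.card) *
        (P.offDiag.image fun q => dist q.1 q.2).card ≤ P.card →
      ∃ Q ⊆ P, Collinear ℝ (Q : Set (EuclideanSpace ℝ (Fin 2))) ∧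
        (P.card : ℝ) ^ (1 / 2 - ε) ≤ Q.card :=
  SDL.energy

end Pool.Agent.Results.MP_ddf486_co.LargeEnergy
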