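import Mathlib
import Pool.Agent.MP_ddf486_co.KL.Main
import Pool.Agent.MP_ddf486_co.KL.Cor

set_option autoImplicit false

namespace Pool.Agent.Results.MP_ddf486_co.Pencil

/-- In a large planar set whose points see on average at most n over a fixed power of log n
distinct distances, almost every point x is joined to almost the square root of n other points y
by lines that carry exp of a power of log n points of the set. -/
theorem result :
    ∀ δ : ℝ, 0 < δ → ∃ c : ℝ, 0 < c ∧ ∀ ε : ℝ, 0 < ε → ∃ n₀ : ℕ,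
      ∀ P : Finset (EuclideanSpace ℝ (Fin 2)), n₀ ≤ P.card →
      ∑ a ∈ P, (((P.image fun b => dist a b).erase 0).card : ℝ) ≤
        (P.card : ℝ) ^ 2 / Real.log P.card ^ δ →
      ∃ B ⊆ P, (B.card : ℝ) ≤ P.card / Real.log P.card ^ (δ / 3) ∧ ∀ x ∈ P, x ∉ B →
        (P.card : ℝ) ^ (1 / 2 - ε) ≤
          {y | y ∈ P ∧ y ≠ x ∧ Real.exp (Real.log P.card ^ c) ≤
            ((P : Set (EuclideanSpace ℝ (Fin 2))) ∩
              (affineSpan ℝ {x, y} : Set (EuclideanSpace ℝ (Fin 2)))).ncard}.ncard :=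
  Pool.Agent.MP_ddf486_co.KV.L.ae
    (Pool.Agent.MP_ddf486_co.KV.L.tri Pool.Agent.MP_ddf486_co.KV.L.lab_all)

/-- The special case of extremal configurations. -/
theorem extremal :
    ∃ c : ℝ, 0 < c ∧ ∀ ε : ℝ, 0 < ε → ∃ n₀ : ℕ,
      ∀ P : Finset (EuclideanSpace ℝ (Fin 2)), n₀ ≤ P.card →
      (∀ P' : Finset (EuclideanSpace ℝ (Fin 2)), P'.card = P.card →
        (P.offDiag.image fun e => dist e.1 e.2).card ≤
          (P'.offDiag.image fun e => dist e.1 e.2).card) →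
      ∃ B ⊆ P, (B.card : ℝ) ≤ P.card / Real.log P.card ^ (1 / 12 : ℝ) ∧ ∀ x ∈ P, x ∉ B →
        (P.card : ℝ) ^ (1 / 2 - ε) ≤
          {y | y ∈ P ∧ y ≠ x ∧ Real.exp (Real.log P.card ^ c) ≤
            ((P : Set (EuclideanSpace ℝ (Fin 2))) ∩
              (affineSpan ℝ {x, y} : Set (EuclideanSpace ℝ (Fin 2)))).ncard}.ncard := by
  obtain ⟨c, c0, h⟩ := result (1 / 4) (by norm_num)
  obtain ⟨n₁, k⟩ := Pool.Agent.MP_ddf486_co.KV.L.extr_hyp
  refine ⟨c, c0, fun ε hε => ?_⟩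
  obtain ⟨n₀, h⟩ := h ε hε
  refine ⟨max n₀ n₁, fun P hn hP => ?_⟩
  have e := h P (le_of_max_le_left hn) (k P (le_of_max_le_right hn) hP)
  rwa [show (1 / 4 / 3 : ℝ) = 1 / 12 by norm_num] at e

/-- If no line carries more than M points, almost every point lies on many rich lines. -/
theorem lines :
    ∀ δ : ℝ, 0 < δ → ∃ c : ℝ, 0 < c ∧ ∀ ε : ℝ, 0 < ε → ∃ n₀ : ℕ,
      ∀ P : Finset (EuclideanSpace ℝ (Fin 2)), n₀ ≤ P.card →
      ∑ a ∈ P, (((P.image fun b => dist a b).erase 0).card : ℝ) ≤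
        (P.card : ℝ) ^ 2 / Real.log P.card ^ δ → ∀ M : ℝ, 0 < M →
      (∀ Q ⊆ P, Collinear ℝ (Q : Set (EuclideanSpace ℝ (Fin 2))) → (Q.card : ℝ) ≤ M) →
      ∃ B ⊆ P, (B.card : ℝ) ≤ P.card / Real.log P.card ^ (δ / 3) ∧ ∀ x ∈ P, x ∉ B →
        ∃ G : Finset (AffineSubspace ℝ (EuclideanSpace ℝ (Fin 2))),
          (P.card : ℝ) ^ (1 / 2 - ε) / M ≤ G.card ∧ ∀ l ∈ G,
            Module.finrank ℝ l.direction = 1 ∧ x ∈ l ∧ Real.exp (Real.log P.card ^ c) ≤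
              ((P : Set (EuclideanSpace ℝ (Fin 2))) ∩
                (l : Set (EuclideanSpace ℝ (Fin 2)))).ncard := by
  intro δ hδ
  obtain ⟨c, c0, h⟩ := result δ hδ
  refine ⟨c, c0, fun ε hε => ?_⟩
  obtain ⟨n₀, h⟩ := h ε hε
  refine ⟨n₀, fun P hn hZ M M0 hM => ?_⟩
  obtain ⟨B, b0, b1, b2⟩ := h P hn hZ
  exact ⟨B, b0, b1, fun x hx k => Pool.Agent.MP_ddf486_co.KV.L.lines_of M0 (b2 x hx k) hM⟩

/-- The statement with a single rich line is contained in the result. -/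
theorem one_line :
    ∀ δ : ℝ, 0 < δ → ∃ c : ℝ, 0 < c ∧ ∃ n₀ : ℕ, ∀ P : Finset (EuclideanSpace ℝ (Fin 2)),
      n₀ ≤ P.card →
      ∑ a ∈ P, (((P.image fun b => dist a b).erase 0).card : ℝ) ≤
        (P.card : ℝ) ^ 2 / Real.log P.card ^ δ →
      ∃ Q ⊆ P, Collinear ℝ (Q : Set (EuclideanSpace ℝ (Fin 2))) ∧
        Real.exp (Real.log P.card ^ c) ≤ Q.card :=
  Pool.Agent.MP_ddf486_co.KV.L.one_line result

end Pool.Agent.Results.MP_ddf486_co.Pencil
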